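import Pool.Agent.Q140.LatEnd

/-!
# The limit points of `|Aut L| / |End L|` over finite lattices are all numbers in `[0, 1]`

Take the lattice of length two with `m + 1 ≥ 3` atoms and replace one atom by the lattice of length
two with `n ≥ 3` atoms. The resulting lattice has `m! n!` automorphisms and
`m! n! + (m + 1)! (n + 2)` bounded lattice endomorphisms, so the ratio is
`1 / (1 + (m + 1) (n + 2) / n!)`.
-/

set_option autoImplicit false

open Filter Topology

namespace Pool.Agent.Results.MP_e86a57_co.LimitSet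

/-- The number of lattice automorphisms of `L` divided by the number of lattice endomorphisms of
`L` (maps preserving binary joins and meets, the least and the greatest element). -/
noncomputable def ratio (L : Type) [Lattice L] [BoundedOrder L] : ℝ :=
  (Nat.card {f : BoundedLatticeHom L L // Function.Bijective f} : ℝ) /
    (Nat.card (BoundedLatticeHom L L) : ℝ)

/-- The set of all limits of `ratio (L k)` for sequences of finite lattices `L k` with
`|L k| → ∞`. -/
def limitSet : Set ℝ :=
  {x : ℝ | ∃ (L : ℕ → Type) (_ : ∀ k, Lattice (L k)) (_ : ∀ k, BoundedOrder (L k)),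
    (∀ k, Finite (L k)) ∧ Tendsto (fun k => Nat.card (L k)) atTop atTop ∧
      Tendsto (fun k => ratio (L k)) atTop (𝓝 x)}

open Q140.LatEnd Nat in
lemma ratio_lat (m n : ℕ) (hm : 2 ≤ m) (hn : 3 ≤ n) :
    ratio (Lat m n) = (1 + (m + 1) * ((n + 2) / (n ! : ℝ)))⁻¹ := by
  unfold ratio
  rw [Lat.card_end hm hn, Lat.card_aut hm hn, Nat.factorial_succ]
  have h1 : (m ! : ℝ) ≠ 0 := by exact_mod_cast (Nat.factorial_pos m).ne'
  have h2 : (n ! : ℝ) ≠ 0 := by exact_mod_cast (Nat.factorial_pos n).ne'
  push_cast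
  rw [eq_comm, inv_eq_iff_eq_inv, inv_div]
  field_simp
  ring

open Nat in
lemma tendsto_q : Tendsto (fun n : ℕ => ((n + 3 : ℕ) + 2 : ℝ) / ((n + 3) ! : ℝ)) atTop (𝓝 0) := by
  have h0 : Tendsto (fun n : ℕ => (5 : ℝ) / (n + 1)) atTop (𝓝 0) :=
    tendsto_const_div_atTop_nhds_zero_nat (5 : ℝ) |>.comp (tendsto_add_atTop_nat 1) |>.congr
      (fun n => by simp)
  refine squeeze_zero (fun n => by positivity) (fun n => ?_) h0
  have h2 : ((n + 3) ! : ℝ) = (n + 3) * ((n + 2) * ((n + 1) * (n ! : ℝ))) := by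
    rw [Nat.factorial_succ, Nat.factorial_succ, Nat.factorial_succ]
    push_cast
    ring
  have h3 : (1 : ℝ) ≤ (n ! : ℝ) := by exact_mod_cast Nat.one_le_iff_ne_zero.2 (Nat.factorial_ne_zero n)
  rw [h2, div_le_div_iff₀ (by positivity) (by positivity)]
  push_cast
  have h4 : 0 ≤ (n : ℝ) := Nat.cast_nonneg n
  nlinarith [mul_nonneg h4 h4, mul_nonneg (mul_nonneg h4 h4) h4,
    mul_le_mul_of_nonneg_left h3 (show (0 : ℝ) ≤ (n + 3) * ((n + 2) * (n + 1)) by positivity)]

open Q140.LatEnd Nat in
/-- every number `(1 + c)⁻¹` with a limit `c` of non-negative numbers `c k` -/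
lemma mem_of_seq (c : ℕ → ℝ) (hc : ∀ k, 0 ≤ c k) (x : ℝ)
    (hx : Tendsto (fun k => (1 + c k)⁻¹) atTop (𝓝 x)) : x ∈ limitSet := by
  set q : ℕ → ℝ := fun n => ((n + 3 : ℕ) + 2 : ℝ) / ((n + 3) ! : ℝ) with hq
  have hq0 : ∀ n, 0 < q n := fun n => by simp only [hq]; positivity
  -- `m k + 1 = ⌊c k / q k⌋ + 3`
  let m : ℕ → ℕ := fun k => ⌊c k / q k⌋₊ + 2
  refine ⟨fun k => Lat (m k) (k + 3), fun k => inferInstance, fun k => inferInstance,
    fun k => inferInstance, ?_, ?_⟩
  · refine tendsto_atTop_mono (fun k => ?_) tendsto_id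
    rw [Lat.card_eq]
    simp only [id]
    omega
  · have hr : ∀ k, ratio (Lat (m k) (k + 3)) = (1 + ((m k : ℝ) + 1) * q k)⁻¹ := by
      intro k
      rw [ratio_lat _ _ (by simp only [m]; omega) (by omega)]
    have hd : Tendsto (fun k => (1 + ((m k : ℝ) + 1) * q k)⁻¹ - (1 + c k)⁻¹) atTop (𝓝 0) := by
      refine squeeze_zero_norm (a := fun k => 3 * q k) (fun k => ?_) ?_
      · have hfl : (⌊c k / q k⌋₊ : ℝ) ≤ c k / q k := Nat.floor_le (div_nonneg (hc k) (hq0 k).le)
        have hfl2 : c k / q k < (⌊c k / q k⌋₊ : ℝ) + 1 := Nat.lt_floor_add_one _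
        have e1 : ((m k : ℝ) + 1) * q k ≤ c k + 3 * q k := by
          have := mul_le_mul_of_nonneg_right hfl (hq0 k).le
          rw [div_mul_cancel₀ _ (hq0 k).ne'] at this
          simp only [m]
          push_cast
          linarith
        have e2 : c k ≤ ((m k : ℝ) + 1) * q k := by
          have := mul_lt_mul_of_pos_right hfl2 (hq0 k)
          rw [div_mul_cancel₀ _ (hq0 k).ne'] at this
          simp only [m]
          push_cast
          linarith [hq0 k]
        set y := ((m k : ℝ) + 1) * q k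
        have hy : 0 ≤ y := (hc k).trans e2
        have e3 : (1 + y)⁻¹ ≤ (1 + c k)⁻¹ := inv_anti₀ (by linarith [hc k]) (by linarith)
        rw [Real.norm_eq_abs, abs_of_nonpos (by linarith)]
        have e4 : (1 + c k)⁻¹ - (1 + y)⁻¹ = (y - c k) * ((1 + c k)⁻¹ * (1 + y)⁻¹) := by
          have h1 : (1 + c k) ≠ 0 := by linarith [hc k]
          have h2 : (1 + y) ≠ 0 := by linarith
          field_simp
          ring
        have e5 : (1 + c k)⁻¹ * (1 + y)⁻¹ ≤ 1 := by
          have h1 : (1 + c k)⁻¹ ≤ 1 := inv_le_one_of_one_le₀ (by linarith [hc k])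
          have h2 : (1 + y)⁻¹ ≤ 1 := inv_le_one_of_one_le₀ (by linarith)
          have h3 : 0 ≤ (1 + y)⁻¹ := by positivity
          calc (1 + c k)⁻¹ * (1 + y)⁻¹ ≤ 1 * 1 := mul_le_mul h1 h2 h3 (by norm_num)
            _ = 1 := by norm_num
        have e6 : (y - c k) * ((1 + c k)⁻¹ * (1 + y)⁻¹) ≤ (y - c k) * 1 :=
          mul_le_mul_of_nonneg_left e5 (by linarith)
        linarith
      · have h := tendsto_q.const_mul (3 : ℝ)
        rw [mul_zero] at h
        exact h
    have hsum := hd.add hx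
    simp only [sub_add_cancel, zero_add] at hsum
    exact hsum.congr (fun k => (hr k).symm)

/-- The set of limits of `|Aut L| / |End L|`, as `L` ranges over the finite lattices and
`|L| → ∞`, is the whole interval `[0, 1]`. -/
theorem result : limitSet = Set.Icc (0 : ℝ) 1 := by
  apply Set.Subset.antisymm
  · rintro x ⟨L, _, _, hfin, -, hx⟩
    have hmem : ∀ k, ratio (L k) ∈ Set.Icc (0 : ℝ) 1 := by
      intro k
      have := hfin k
      have hE : Finite (BoundedLatticeHom (L k) (L k)) := DFunLike.finite _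
      refine ⟨by unfold ratio; positivity, ?_⟩
      unfold ratio
      apply div_le_one_of_le₀ _ (by positivity)
      exact_mod_cast Nat.card_le_card_of_injective Subtype.val Subtype.val_injective
    exact isClosed_Icc.mem_of_tendsto hx (Eventually.of_forall hmem)
  · rintro x ⟨h0, h1⟩
    rcases h0.eq_or_lt with rfl | h0
    · refine mem_of_seq (fun k => (k : ℝ)) (fun k => Nat.cast_nonneg k) 0 ?_
      have : Tendsto (fun k : ℕ => 1 + (k : ℝ)) atTop atTop :=
        tendsto_atTop_add_const_left _ _ tendsto_natCast_atTop_atTop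
      exact this.inv_tendsto_atTop
    · refine mem_of_seq (fun _ => x⁻¹ - 1) (fun _ => ?_) x ?_
      · have := (one_le_inv₀ h0).2 h1
        linarith
      · have : (1 + (x⁻¹ - 1))⁻¹ = x := by
          rw [add_sub_cancel, inv_inv]
        rw [this]
        exact tendsto_const_nhds

end Pool.Agent.Results.MP_e86a57_co.LimitSet
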